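import Mathlib

set_option autoImplicit false

open Topology Filter Set Real

namespace Pool.Agent.V11192.Sine

/-- The compact sine curve: `{0} × [-1,1]` together with the graph of `sin (1/x)` on `(0,1]`. -/
def K : Set (ℝ × ℝ) :=
  {p | (p.1 = 0 ∧ p.2 ∈ Icc (-1 : ℝ) 1) ∨ (p.1 ∈ Ioc (0 : ℝ) 1 ∧ p.2 = sin (p.1)⁻¹)}

/-- A sequence of `x`-values tending to 0 at which the sine curve has a given `y`-coordinate. -/
noncomputable def xSeq (y : ℝ) (k : ℕ) : ℝ := 1 / (arcsin y + (k + 1) * (2 * π))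

lemma xSeq_pos (y : ℝ) (k : ℕ) : 0 < xSeq y k := by
  rw [xSeq, one_div_pos]
  nlinarith [pi_pos, neg_pi_div_two_le_arcsin y]

lemma sin_inv_xSeq {y : ℝ} (hy : y ∈ Icc (-1) 1) (k : ℕ) : sin (xSeq y k)⁻¹ = y := by
  simpa [xSeq, -Nat.cast_add, ← Nat.cast_succ] using sin_arcsin' hy

lemma xSeq_tendsto (y : ℝ) : Tendsto (xSeq y) atTop (𝓝 0) := by
  refine .comp (g := fun k : ℝ ↦ 1 / (arcsin y + (k + 1) * (2 * π))) ?_ tendsto_natCast_atTop_atTop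
  simp only [div_eq_mul_inv, show 𝓝 0 = 𝓝 (1 * (0 : ℝ)) by simp]
  refine (tendsto_inv_atTop_zero.comp <| tendsto_atTop_add_const_left _ _ ?_).const_mul _
  exact (tendsto_atTop_add_const_right _ _ tendsto_id).atTop_mul_const (by positivity)

/-- For any `0 < a` and any `y ∈ Icc (-1) 1`, we can find `x ∈ Ioc a 0` with `sin x⁻¹ = y`. -/
lemma exists_mem_Ioc_of_y {y : ℝ} (hy : y ∈ Icc (-1) 1) {a : ℝ} (ha : 0 < a) :
    ∃ x ∈ Ioc 0 a, sin x⁻¹ = y := by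
  obtain ⟨N, h_dist⟩ := (Metric.tendsto_nhds.mp (xSeq_tendsto y) (a / 2) (by positivity)).exists
  refine ⟨xSeq y N, ⟨xSeq_pos y N, ?_⟩, sin_inv_xSeq hy _⟩
  rw [dist_eq, sub_zero, abs_of_pos (xSeq_pos _ N)] at h_dist
  linarith

lemma snd_mem {p : ℝ × ℝ} (hp : p ∈ K) : p.2 ∈ Icc (-1 : ℝ) 1 := by
  rcases hp with ⟨_, h⟩ | ⟨_, h⟩
  · exact h
  · rw [h]; exact sin_mem_Icc _

lemma fst_mem {p : ℝ × ℝ} (hp : p ∈ K) : p.1 ∈ Icc (0 : ℝ) 1 := by
  rcases hp with ⟨h, _⟩ | ⟨h, _⟩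
  · rw [h]; exact ⟨le_rfl, zero_le_one⟩
  · exact ⟨h.1.le, h.2⟩

lemma closure_graph : closure ((fun x : ℝ ↦ (x, sin x⁻¹)) '' Ioc 0 1) = K := by
  ext ⟨x, y⟩
  simp only [mem_closure_iff_seq_limit, Prod.tendsto_iff]
  constructor
  · rintro ⟨f, hf_mem, hf_lim⟩
    have x_nonneg : 0 ≤ x := by
      refine isClosed_Ici.mem_of_tendsto hf_lim.1 (.of_forall fun n ↦ ?_)
      obtain ⟨y, hy⟩ := hf_mem n
      simpa [← hy.2] using hy.1.1.le
    have x_le : x ≤ 1 := by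
      refine isClosed_Iic.mem_of_tendsto hf_lim.1 (.of_forall fun n ↦ ?_)
      obtain ⟨y, hy⟩ := hf_mem n
      simpa [← hy.2] using hy.1.2
    rcases x_nonneg.eq_or_lt with rfl | h
    · left
      refine ⟨rfl, ?_⟩
      refine isClosed_Icc.mem_of_tendsto hf_lim.2 (.of_forall fun n ↦ ?_)
      obtain ⟨y, hy⟩ := hf_mem n
      simpa only [Function.comp_apply, ← hy.2] using sin_mem_Icc ..
    · right
      refine ⟨⟨h, x_le⟩, ?_⟩
      have : ContinuousAt (fun x ↦ sin x⁻¹) x :=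
        continuous_sin.continuousAt.comp <| continuousAt_inv₀ h.ne'
      refine tendsto_nhds_unique hf_lim.2 ?_
      convert! this.tendsto.comp hf_lim.1 with n
      obtain ⟨y, hy⟩ := hf_mem n
      simp [← hy.2]
  · rintro (⟨hx, hy⟩ | ⟨hx, hy⟩)
    · simp only at hx hy
      subst hx
      have hev : ∀ᶠ n in atTop, xSeq y n < 1 := (xSeq_tendsto y).eventually (gt_mem_nhds one_pos)
      obtain ⟨N, hN⟩ := eventually_atTop.mp hev
      refine ⟨fun n ↦ (xSeq y (n + N), y), fun n ↦ ⟨_, ⟨xSeq_pos y (n + N), (hN _ (by omega)).le⟩, ?_⟩,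
        ?_, ?_⟩
      · simpa using sin_inv_xSeq hy (n + N)
      · exact (xSeq_tendsto y).comp (tendsto_add_atTop_nat N)
      · exact tendsto_const_nhds
    · simp only at hx hy
      exact ⟨fun _ => (x, y), fun n => ⟨x, hx, by simp [hy]⟩, tendsto_const_nhds, tendsto_const_nhds⟩

lemma isClosed_K : IsClosed K := by
  rw [← closure_graph]; exact isClosed_closure

lemma isCompact_K : IsCompact K := by
  refine (isCompact_Icc (a := ((0 : ℝ), (-1 : ℝ))) (b := ((1 : ℝ), (1 : ℝ)))).of_isClosed_subset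
    isClosed_K ?_
  intro p hp
  have h1 := fst_mem hp
  have h2 := snd_mem hp
  exact ⟨⟨h1.1, h2.1⟩, ⟨h1.2, h2.2⟩⟩

lemma isConnected_K : IsConnected K := by
  rw [← closure_graph]
  refine ((isConnected_Ioc zero_lt_one).image _ <| continuousOn_id.prodMk ?_).closure
  exact continuous_sin.comp_continuousOn (continuousOn_inv₀.mono (fun x hx => by
    simpa using hx.1.ne'))

lemma mem_K_of_pos {p : ℝ × ℝ} (hx : 0 < p.1) (hT : p ∈ K) : p.2 = sin (p.1)⁻¹ := by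
  rcases hT with h | h
  · exact absurd h.1 hx.ne'
  · exact h.2

private lemma norm_ge_abs_snd {a b : ℝ} : |b| ≤ ‖(a, b)‖ := by simp

private lemma exists_unitInterval_gt {t₀ : unitInterval} (ht₀ : t₀ < 1) {δ : ℝ} (hδ : 0 < δ) :
    ∃ t₁, t₀ < t₁ ∧ dist t₀ t₁ < δ := by
  let s₀ := (t₀ : ℝ)
  let s₁ := min (s₀ + δ / 2) 1
  have h_s₀_delta_pos : 0 ≤ s₀ + δ / 2 := add_nonneg t₀.2.1 (by positivity)
  have hs₁ : 0 ≤ s₁ := le_min h_s₀_delta_pos zero_le_one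
  have hs₁' : s₁ ≤ 1 := min_le_right ..
  refine ⟨⟨s₁, hs₁, hs₁'⟩, lt_min ((lt_add_iff_pos_right _).mpr (half_pos hδ)) ht₀, ?_⟩
  have h_le : s₁ ≤ s₀ + δ / 2 := min_le_left _ _
  have h_ge : s₀ ≤ s₁ := le_min (by linarith) t₀.2.2
  rw [Subtype.dist_eq, dist_comm, dist_eq, abs_of_nonneg (by linarith)]
  linarith

/-- No path in `K` from `(0,0)` to a point with first coordinate `1`. -/
theorem no_path (p : unitInterval → ℝ × ℝ) (hcont : Continuous p) (hmem : ∀ t, p t ∈ K)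
    (h0 : (p 0).1 = 0) (h1 : (p 1).1 = 1) : False := by
  have xcoord_pathContinuous : Continuous fun t ↦ (p t).1 := continuous_fst.comp hcont
  let t₀ : unitInterval := sSup {t | (p t).1 = 0}
  have h_pt₀_x : (p t₀).1 = 0 :=
    (isClosed_singleton.preimage xcoord_pathContinuous).sSup_mem ⟨0, by simpa using h0⟩
  obtain ⟨δ, hδ, ht⟩ : ∃ δ, 0 < δ ∧ ∀ t, dist t t₀ < δ → dist (p t) (p t₀) < 1 :=
    Metric.eventually_nhds_iff.mp <| Metric.tendsto_nhds.mp (hcont.continuousAt (x := t₀)) _ one_pos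
  obtain ⟨t₁, ht₁⟩ : ∃ t₁, t₀ < t₁ ∧ dist t₀ t₁ < δ := by
    refine exists_unitInterval_gt (lt_of_le_of_ne (unitInterval.le_one t₀) fun ht₀' ↦ ?_) hδ
    have x_eq_zero : (p 1).1 = 0 := by rwa [ht₀'] at h_pt₀_x
    linarith
  let a := (p t₁).1
  have ha : 0 < a := by
    have h2 := (fst_mem (hmem t₁)).1
    rcases h2.eq_or_lt with h3 | h3
    · exact ((show t₁ ≤ t₀ from le_sSup h3.symm).not_gt ht₁.1).elim
    · exact h3
  have intervalAZeroSubOfT₀T₁Xcoord : Icc 0 a ⊆ (fun t ↦ (p t).1) '' Icc t₀ t₁ :=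
    (isPreconnected_Icc.image _ <| xcoord_pathContinuous.continuousOn).Icc_subset
      (show 0 ∈ (fun t ↦ (p t).1) '' Icc t₀ t₁ from ⟨t₀, ⟨le_rfl, ht₁.1.le⟩, ‹_›⟩)
      (show a ∈ (fun t ↦ (p t).1) '' Icc t₀ t₁ from ⟨t₁, ⟨ht₁.1.le, le_rfl⟩, rfl⟩)
  have exists_close {y : ℝ} (hy : y ∈ Icc (-1) 1) : ∃ t, dist t t₀ < δ ∧ (p t).2 = y := by
    obtain ⟨x, hx, hx'⟩ := exists_mem_Ioc_of_y hy ha
    obtain ⟨t, ht⟩ : ∃ t ∈ Icc t₀ t₁, (p t).1 = x := intervalAZeroSubOfT₀T₁Xcoord ⟨hx.1.le, hx.2⟩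
    have hp : (p t).2 = sin (p t).1⁻¹ := mem_K_of_pos (ht.2 ▸ hx.1) (hmem t)
    refine ⟨t, ?_, by rw [← hx', hp, ht.2]⟩
    calc
    dist t t₀ ≤ dist t₁ t₀ := dist_right_le_of_mem_uIcc (Icc_subset_uIcc' ht.1)
    _ = dist t₀ t₁ := by rw [dist_comm]
    _ < δ := ht₁.2
  obtain ⟨x₁, hx₁, h_pathx₁⟩ : ∃ x₁, dist x₁ t₀ < δ ∧ (p x₁).2 = 1 := exists_close (by simp)
  obtain ⟨x₂, hx₂, h_pathx₂⟩ : ∃ x₂, dist x₂ t₀ < δ ∧ (p x₂).2 = -1 := exists_close (by simp)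
  have h3 : dist (p x₁) (p x₂) < 2 := by
    refine (dist_triangle_right _ _ (p t₀)).trans_lt ?_
    exact (add_lt_add (ht _ hx₁) (ht _ hx₂)).trans_eq (by norm_num)
  have h4 : |(p x₁).2 - (p x₂).2| ≤ dist (p x₁) (p x₂) := by
    rw [Prod.dist_eq, Real.dist_eq, Real.dist_eq]; exact le_max_right _ _
  rw [h_pathx₁, h_pathx₂, abs_of_nonneg (by norm_num)] at h4
  linarith

end Pool.Agent.V11192.Sine
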